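import Mathlib

open MeasureTheory Set Filter Topology

namespace Pool.Agent.Results.MP_ff06a2_an.Snow

/-- Euclidean space of dimension `d`. -/
abbrev E (d : ℕ) : Type := EuclideanSpace ℝ (Fin d)

/-- Admissible pairs for the dual problem. -/
def Feasible {d : ℕ} (c : E d × E d → ℝ) (ρ μ : Measure (E d)) (u v : E d → ℝ) : Prop :=
  Integrable u ρ ∧ Integrable v μ ∧ ∀ x y, u x + v y ≤ c (x, y)

/-- Kantorovich potentials: maximisers of the dual problem. -/
def Optimal {d : ℕ} (c : E d × E d → ℝ) (ρ μ : Measure (E d)) (u v : E d → ℝ) : Prop :=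
  Feasible c ρ μ u v ∧ ∀ u' v', Feasible c ρ μ u' v' →
    ∫ x, u' x ∂ρ + ∫ y, v' y ∂μ ≤ ∫ x, u x ∂ρ + ∫ y, v y ∂μ

/-- The standing hypotheses (H). -/
def HypH {d : ℕ} (c : E d × E d → ℝ) (ρ μ : Measure (E d)) : Prop :=
  Bornology.IsBounded μ.support ∧ ContDiff ℝ 1 c ∧ ∃ a b : E d → ℝ, UpperSemicontinuous a ∧
    UpperSemicontinuous b ∧ Integrable a ρ ∧ Integrable b μ ∧ ∀ x y, |c (x, y)| ≤ a x + b y

/-- The exponential on the unit circle. -/
noncomputable def e (x : ℝ) : ℂ := Complex.exp (Complex.I * x)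

/-- A lacunary series. -/
noncomputable def G (t : ℝ) : ℂ := ∑' i : ℕ, (1 / 4096 : ℂ) ^ i * e (65536 ^ i * t)

theorem e_norm (x : ℝ) : ‖e x‖ = 1 := Complex.norm_exp_I_mul_ofReal x

theorem term (i : ℕ) (t : ℝ) : ‖(1 / 4096 : ℂ) ^ i * e (65536 ^ i * t)‖ ≤ (1 / 4096 : ℝ) ^ i := by
  rw [norm_mul, e_norm, norm_pow]; simp

theorem G_cont : Continuous G :=
  continuous_tsum (fun i => by unfold e; fun_prop)
    (summable_geometric_of_lt_one (by norm_num) (by norm_num)) term

theorem G_bd (t : ℝ) : ‖G t‖ ≤ 2 :=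
  (tsum_of_norm_bounded (hasSum_geometric_of_lt_one (r := 1 / 4096) (by norm_num) (by norm_num))
    fun i => term i t).trans (by norm_num)

theorem G_eq (t : ℝ) : G t = e t + 1 / 4096 * G (65536 * t) := by
  rw [G, (Summable.of_norm_bounded (summable_geometric_of_lt_one (by norm_num) (by norm_num))
    fun i => term i t).tsum_eq_zero_add, G, ← tsum_mul_left]
  congr 1
  · simp
  · exact tsum_congr fun i => by
      rw [pow_succ, pow_succ, mul_assoc ((65536 : ℝ) ^ i)]; ring

theorem e_sub (s t : ℝ) : ‖e s - e t‖ = ‖e (s - t) - 1‖ := by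
  have : e s - e t = e t * (e (s - t) - 1) := by
    rw [mul_sub, e, e, e, ← Complex.exp_add]
    congr 2
    · push_cast; ring
    · rw [mul_one]
  rw [this, norm_mul, e_norm, one_mul]

theorem low (i : ℕ) : ∀ s t : ℝ, 1 / 256 < 65536 ^ i * (s - t) → 65536 ^ i * (s - t) ≤ 1 →
    (16 ^ i / 2 + 1 / 15) * (s - t) ≤ ‖G s - G t‖ := by
  have h0 : ∀ s t, G s - G t = (e s - e t) + 1 / 4096 * (G (65536 * s) - G (65536 * t)) :=
    fun s t => by rw [G_eq s, G_eq t]; ring
  have hn : ∀ z : ℂ, ‖1 / 4096 * z‖ = 1 / 4096 * ‖z‖ := fun z => by rw [norm_mul]; simp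
  induction i with
  | zero =>
    intro s t h1 h2
    rw [pow_zero, one_mul] at h1 h2
    have h3 := norm_sub_le (G (65536 * s)) (G (65536 * t))
    have h4 := norm_sub_le (G s - G t) (1 / 4096 * (G (65536 * s) - G (65536 * t)))
    rw [hn, h0 s t, add_sub_cancel_right, ← h0 s t, e_sub, e,
      Complex.norm_exp_I_mul_ofReal_sub_one, Real.norm_eq_abs] at h4
    have h5 := Real.sin_gt_sub_cube (x := (s - t) / 2) (by linarith)
    have h6 := le_abs_self (2 * Real.sin ((s - t) / 2))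
    have h7 : ((s - t) / 2) ^ 3 ≤ (s - t) / 8 := by
      have : (s - t) ^ 2 ≤ 1 := pow_le_one₀ (by linarith) h2
      nlinarith
    linarith [G_bd (65536 * s), G_bd (65536 * t)]
  | succ i ih =>
    intro s t h1 h2
    have h3 : (65536 : ℝ) ^ i * (65536 * s - 65536 * t) = 65536 ^ (i + 1) * (s - t) := by ring
    have h4 := ih (65536 * s) (65536 * t) (by rwa [h3]) (by rwa [h3])
    have h5 : 0 < s - t := by
      by_contra h
      nlinarith [pow_pos (show (0 : ℝ) < 65536 by norm_num) (i + 1)]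
    have h6 := norm_sub_le (G s - G t) (e s - e t)
    rw [h0 s t, add_sub_cancel_left, ← h0 s t, hn, e_sub] at h6
    have h7 : ‖e (s - t) - 1‖ ≤ ‖s - t‖ := Real.norm_exp_I_mul_ofReal_sub_one_le
    rw [Real.norm_eq_abs, abs_of_pos h5] at h7
    rw [pow_succ]
    nlinarith

theorem low4 (i : ℕ) (s t : ℝ) (h1 : 1 / 256 < 65536 ^ i * (s - t))
    (h2 : 65536 ^ i * (s - t) ≤ 1) : (s - t) ^ 3 / 4096 ≤ ‖G s - G t‖ ^ 4 := by
  have h5 : 0 < s - t := by
    by_contra h
    nlinarith [pow_pos (show (0 : ℝ) < 65536 by norm_num) i]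
  have h3 : 16 ^ i / 2 * (s - t) ≤ ‖G s - G t‖ := by linarith [low i s t h1 h2]
  refine le_trans ?_ (pow_le_pow_left₀ (by positivity) h3 4)
  have h4 : ((16 : ℝ) ^ i / 2 * (s - t)) ^ 4 = 65536 ^ i * (s - t) * (s - t) ^ 3 / 16 := by
    rw [show (65536 : ℝ) = 16 ^ 4 by norm_num, ← pow_mul, mul_comm 4 i, pow_mul]; ring
  rw [h4]
  nlinarith [pow_pos h5 3]

/-- The snowflake curve in dimension four. -/
noncomputable def γ (t : ℝ) : E 4 :=
  !₂[(G t).re, (G t).im, (G (256 * t)).re / 64, (G (256 * t)).im / 64]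

theorem γ_cont : Continuous γ := by
  have := G_cont
  refine (PiLp.continuous_toLp 2 _).comp (continuous_pi fun i => ?_)
  fin_cases i <;> simp <;> fun_prop

theorem γ_sq (s t : ℝ) :
    ‖γ s - γ t‖ ^ 2 = ‖G s - G t‖ ^ 2 + ‖G (256 * s) - G (256 * t)‖ ^ 2 / 4096 := by
  rw [EuclideanSpace.norm_sq_eq, Fin.sum_univ_four, Complex.sq_norm, Complex.sq_norm,
    Complex.normSq_apply, Complex.normSq_apply]
  simp [γ]
  ring

theorem snow {s t : ℝ} (h : s - t ≤ 1) : (s - t) / 16 ≤ ‖γ s - γ t‖ ^ (4 / 3 : ℝ) := by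
  rcases le_or_gt (s - t) 0 with h0 | h0
  · exact le_trans (show _ ≤ (0 : ℝ) by linarith) (by positivity)
  have h1 : (s - t) ^ 3 / 4096 ≤ ‖γ s - γ t‖ ^ 4 := by
    obtain ⟨j, hj, hj'⟩ := exists_nat_pow_near_of_lt_one h0 h (show (0 : ℝ) < 1 / 256 by norm_num)
      (by norm_num)
    have hp : (0 : ℝ) < 256 ^ j := by positivity
    have h2 : (256 : ℝ) ^ j * (1 / 256) ^ j = 1 := by rw [← mul_pow]; simp
    have h3 : 1 / 256 < 256 ^ j * (s - t) := by
      have := mul_lt_mul_of_pos_left hj hp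
      rw [pow_succ, ← mul_assoc, h2] at this
      linarith
    have h4 : 256 ^ j * (s - t) ≤ 1 := h2 ▸ mul_le_mul_of_nonneg_left hj' hp.le
    rw [show ‖γ s - γ t‖ ^ 4 = (‖γ s - γ t‖ ^ 2) ^ 2 by ring, γ_sq]
    have h5 := sq_nonneg ‖G s - G t‖
    have h6 := sq_nonneg ‖G (256 * s) - G (256 * t)‖
    obtain ⟨i, rfl | rfl⟩ := Nat.even_or_odd' j
    · rw [pow_mul] at h3 h4
      have := low4 i s t (by norm_num at h3 ⊢; exact h3) (by norm_num at h4 ⊢; exact h4)
      nlinarith
    · have h7 : (256 : ℝ) ^ (2 * i + 1) * (s - t) = 65536 ^ i * (256 * s - 256 * t) := by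
        rw [pow_succ, pow_mul]; norm_num; ring
      have := low4 i (256 * s) (256 * t) (h7 ▸ h3) (h7 ▸ h4)
      nlinarith
  refine le_of_pow_le_pow_left₀ three_ne_zero (by positivity) ?_
  rw [← Real.rpow_natCast (‖γ s - γ t‖ ^ (4 / 3 : ℝ)), ← Real.rpow_mul (norm_nonneg _),
    show (4 / 3 : ℝ) * (3 : ℕ) = (4 : ℕ) by norm_num, Real.rpow_natCast]
  linarith

theorem openPos : Measure.IsOpenPosMeasure (volume : Measure unitInterval) := ⟨fun U hU hne h => by
  obtain ⟨V, hV, rfl⟩ := isOpen_induced_iff.1 hU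
  obtain ⟨x, hx⟩ := hne
  have h1 : (x : ℝ) ∈ closure (Ioo (0 : ℝ) 1) := by rw [closure_Ioo zero_ne_one]; exact x.2
  have h2 := (hV.inter isOpen_Ioo).measure_pos volume (mem_closure_iff.1 h1 V hV hx)
  rw [unitInterval.volume_apply, Subtype.image_preimage_coe] at h
  refine h2.ne' (measure_mono_null (fun y hy => ?_) h)
  exact mem_inter (Ioo_subset_Icc_self hy.2) hy.1⟩

theorem result : ∃ (d : ℕ) (ρ μ : Measure (E d)) (c : E d × E d → ℝ), 1 ≤ d ∧
    IsProbabilityMeasure ρ ∧ IsProbabilityMeasure μ ∧ HypH c ρ μ ∧ IsConnected ρ.support ∧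
    (∀ x y, c (x, y) = ‖x - y‖ ^ (4 / 3 : ℝ)) ∧
    ∃ u₀ v₀ u₁ v₁ : E d → ℝ, Optimal c ρ μ u₀ v₀ ∧ Optimal c ρ μ u₁ v₁ ∧
      ¬ ∃ l : ℝ, ∀ᵐ x ∂ρ, u₀ x - u₁ x = l := by
  haveI := openPos
  let g : unitInterval → E 4 := fun t => γ t
  have hg : Continuous g := γ_cont.comp continuous_subtype_val
  have hs : ∀ s t : unitInterval, ((s : ℝ) - t) / 16 ≤ ‖g s - g t‖ ^ (4 / 3 : ℝ) := fun s t =>
    snow (by linarith [s.2.2, t.2.1])
  have hi : Function.Injective g := fun s t h => by
    have h1 := hs s t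
    have h2 := hs t s
    rw [h, sub_self, norm_zero, Real.zero_rpow (by norm_num)] at h1 h2
    exact Subtype.ext (by linarith)
  have hm := (hg.isClosedEmbedding hi).measurableEmbedding
  have hint : ∀ f : E 4 → ℝ, Continuous (f ∘ g) → Integrable f (Measure.map g volume) :=
    fun f hf => hm.integrable_map_iff.2
      (hf.integrable_of_hasCompactSupport (HasCompactSupport.of_compactSpace _))
  have hsupp : (Measure.map g volume).support = range g := by
    refine Subset.antisymm (Measure.support_subset_of_isClosed (isCompact_range hg).isClosed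
      (hm.ae_map_iff.2 (Eventually.of_forall fun t => ⟨t, rfl⟩))) ?_
    rintro _ ⟨t, rfl⟩
    refine (Measure.mem_support_iff_forall _).2 fun U hU => ?_
    rw [hm.map_apply]
    exact Measure.measure_pos_of_mem_nhds _ (hg.continuousAt hU)
  have hopt : ∀ u v, Feasible (fun p => ‖p.1 - p.2‖ ^ (4 / 3 : ℝ)) (Measure.map g volume)
      (Measure.map g volume) u v → (∀ t, u (g t) + v (g t) = 0) →
      Optimal (fun p => ‖p.1 - p.2‖ ^ (4 / 3 : ℝ)) (Measure.map g volume)
        (Measure.map g volume) u v := fun u v h h0 => by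
    refine ⟨h, fun u' v' h' => ?_⟩
    rw [← integral_add h'.1 h'.2.1, ← integral_add h.1 h.2.1, hm.integral_map, hm.integral_map]
    simp only [h0, integral_zero]
    refine integral_nonpos fun t => ?_
    simpa using h'.2.2 (g t) (g t)
  have ha : Continuous fun x : E 4 => (2 * ‖x‖) ^ (4 / 3 : ℝ) :=
    (continuous_const.mul continuous_norm).rpow_const fun x => Or.inr (by norm_num)
  let u : E 4 → ℝ := Function.extend g (fun t => (t : ℝ) / 16) fun _ => 0
  let v : E 4 → ℝ := Function.extend g (fun t => -((t : ℝ) / 16)) fun _ => -1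
  have hu : ∀ t, u (g t) = t / 16 := fun t => hi.extend_apply _ _ t
  have hv : ∀ t, v (g t) = -(t / 16) := fun t => hi.extend_apply _ _ t
  refine ⟨4, Measure.map g volume, Measure.map g volume, fun p => ‖p.1 - p.2‖ ^ (4 / 3 : ℝ),
    by norm_num, Measure.isProbabilityMeasure_map hg.aemeasurable,
    Measure.isProbabilityMeasure_map hg.aemeasurable, ⟨hsupp ▸ (isCompact_range hg).isBounded,
      (contDiff_norm_rpow (by norm_num)).comp (contDiff_fst.sub contDiff_snd), _, _,
      ha.upperSemicontinuous, ha.upperSemicontinuous, hint _ (ha.comp hg), hint _ (ha.comp hg),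
      fun x y => ?_⟩, hsupp ▸ isConnected_range hg, fun x y => rfl, 0, 0, u, v,
    hopt _ _ ⟨integrable_zero _ _ _, integrable_zero _ _ _, fun x y => ?_⟩ (by simp),
    hopt _ _ ⟨hint _ ?_, hint _ ?_, fun x y => ?_⟩ fun t => by rw [hu, hv]; ring, ?_⟩
  · rw [abs_of_nonneg (by positivity)]
    have h1 := norm_sub_le x y
    rcases le_total ‖x‖ ‖y‖ with h | h
    · exact le_add_of_nonneg_of_le (by positivity)
        (Real.rpow_le_rpow (norm_nonneg _) (by linarith) (by norm_num))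
    · exact le_add_of_le_of_nonneg
        (Real.rpow_le_rpow (norm_nonneg _) (by linarith) (by norm_num)) (by positivity)
  · simp only [Pi.zero_apply, add_zero]
    positivity
  · rw [show u ∘ g = fun t : unitInterval => (t : ℝ) / 16 from funext hu]
    fun_prop
  · rw [show v ∘ g = fun t : unitInterval => -((t : ℝ) / 16) from funext hv]
    fun_prop
  · have h0 : 0 ≤ ‖x - y‖ ^ (4 / 3 : ℝ) := by positivity
    change u x + v y ≤ ‖x - y‖ ^ (4 / 3 : ℝ)
    by_cases hx : ∃ s, g s = x <;> by_cases hy : ∃ t, g t = y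
    · obtain ⟨s, rfl⟩ := hx
      obtain ⟨t, rfl⟩ := hy
      rw [hu, hv]
      linarith [hs s t]
    · obtain ⟨s, rfl⟩ := hx
      rw [hu, show v y = -1 from Function.extend_apply' _ _ _ hy]
      linarith [s.2.2]
    · obtain ⟨t, rfl⟩ := hy
      rw [hv, show u x = 0 from Function.extend_apply' _ _ _ hx]
      linarith [t.2.1]
    · rw [show v y = -1 from Function.extend_apply' _ _ _ hy,
        show u x = 0 from Function.extend_apply' _ _ _ hx]
      linarith
  · rintro ⟨l, hl⟩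
    rw [hm.ae_map_iff] at hl
    simp only [hu, Pi.zero_apply] at hl
    have h1 := (Continuous.ae_eq_iff_eq volume (f := fun t : unitInterval => 0 - (t : ℝ) / 16)
      (g := fun _ => l) (by fun_prop) continuous_const).1 hl
    have h2 := congrFun h1 0
    have h3 := congrFun h1 1
    norm_num at h2 h3
    linarith

end Pool.Agent.Results.MP_ff06a2_an.Snow
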